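import Mathlib
import Pool.Agent.Q162.QP.Kos

/-!
# Project QM: quadratic forms in three variables, algebra
-/

set_option autoImplicit false
set_option linter.unusedSectionVars false

namespace Pool.Agent.Q162.QM

open MvPolynomial Pool.Agent.Q162.QP

theorem pderiv_comm {σ : Type} (s t : σ) (F : MvPolynomial σ ℂ) :
    pderiv s (pderiv t F) = pderiv t (pderiv s F) := by
  classical
  have h : ⁅(pderiv s : Derivation ℂ (MvPolynomial σ ℂ) (MvPolynomial σ ℂ)),
      (pderiv t : Derivation ℂ (MvPolynomial σ ℂ) (MvPolynomial σ ℂ))⁆ = 0 := by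
    apply MvPolynomial.derivation_ext
    intro i
    rw [Derivation.commutator_apply, Derivation.zero_apply, pderiv_X, pderiv_X]
    have h1 : ∀ a b : σ, pderiv a ((Pi.single b 1 : σ → MvPolynomial σ ℂ) i) = 0 := by
      intro a b
      by_cases h2 : i = b
      · subst h2
        rw [Pi.single_eq_same, pderiv_one]
      · rw [Pi.single_eq_of_ne h2, map_zero]
    rw [h1, h1, sub_zero]
  have h2 := DFunLike.congr_fun h F
  rw [Derivation.commutator_apply, Derivation.zero_apply] at h2
  exact sub_eq_zero.1 h2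

/-- the Hessian matrix of a quadratic form -/
noncomputable def Hs (F : MvPolynomial (Fin 3) ℂ) : Matrix (Fin 3) (Fin 3) ℂ :=
  Matrix.of fun s t => coeff 0 (pderiv s (pderiv t F))

theorem Hs_symm (F : MvPolynomial (Fin 3) ℂ) : (Hs F).IsSymm := by
  ext s t
  rw [Matrix.transpose_apply]
  unfold Hs
  rw [Matrix.of_apply, Matrix.of_apply, pderiv_comm]

/-- a linear form -/
noncomputable def lf (a : Fin 3 → ℂ) : MvPolynomial (Fin 3) ℂ := ∑ i, C (a i) * X i

theorem lf_eval (a p : Fin 3 → ℂ) : eval p (lf a) = ∑ i, a i * p i := by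
  unfold lf
  rw [map_sum]
  refine Finset.sum_congr rfl fun i _ => ?_
  rw [map_mul, eval_C, eval_X]

theorem lf_pderiv (a : Fin 3 → ℂ) (s : Fin 3) : pderiv s (lf a) = C (a s) := by
  unfold lf
  rw [map_sum, Finset.sum_eq_single s]
  · rw [pderiv_C_mul, pderiv_X_self, mul_one]
  · intro b _ hb
    rw [pderiv_C_mul, pderiv_X_of_ne hb, mul_zero]
  · intro h
    exact absurd (Finset.mem_univ _) h

theorem lf_inj {a : Fin 3 → ℂ} (h : lf a = 0) : a = 0 := by
  funext s
  have h1 := lf_pderiv a s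
  rw [h, map_zero] at h1
  exact (C_eq_zero.1 h1.symm)

theorem grad (F : MvPolynomial (Fin 3) ℂ) (hF : F.IsHomogeneous 2) (t : Fin 3) (p : Fin 3 → ℂ) :
    eval p (pderiv t F) = ∑ s, Hs F s t * p s := by
  rw [pderiv_quad F hF t, map_sum]
  refine Finset.sum_congr rfl fun s _ => ?_
  rw [map_mul, eval_C, eval_X]
  rfl

theorem quad_eq (F : MvPolynomial (Fin 3) ℂ) (hF : F.IsHomogeneous 2) (x L : Fin 3 → ℂ)
    (h : ∀ s t, Hs F s t = x s * L t + L s * x t) : F = lf x * lf L := by
  have h1 := hF.sum_X_mul_pderiv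
  have h2 : ∀ t, pderiv t F = ∑ s, C (Hs F s t) * X s := fun t => pderiv_quad F hF t
  have h3 : ∀ t, pderiv t F = C (L t) * lf x + C (x t) * lf L := by
    intro t
    rw [h2]
    unfold lf
    rw [Finset.mul_sum, Finset.mul_sum, ← Finset.sum_add_distrib]
    refine Finset.sum_congr rfl fun s _ => ?_
    rw [h, C_add, C_mul, C_mul]
    ring
  have h4 : ∑ i, X i * pderiv i F = 2 * (lf x * lf L) := by
    have h5 : ∀ i, X i * pderiv i F = C (L i) * X i * lf x + C (x i) * X i * lf L := by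
      intro i
      rw [h3]
      ring
    rw [Finset.sum_congr rfl fun i _ => h5 i, Finset.sum_add_distrib, ← Finset.sum_mul,
      ← Finset.sum_mul]
    change lf L * lf x + lf x * lf L = _
    ring
  rw [h4, nsmul_eq_mul] at h1
  have h5 : (2 : MvPolynomial (Fin 3) ℂ) ≠ 0 := by
    have : (2 : MvPolynomial (Fin 3) ℂ) = C 2 :=
      (map_ofNat (C : ℂ →+* MvPolynomial (Fin 3) ℂ) 2).symm
    rw [this, Ne, C_eq_zero]
    norm_num
  refine (mul_left_cancel₀ h5 ?_).symm
  rw [h1]
  norm_num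

theorem quad_zero (F : MvPolynomial (Fin 3) ℂ) (hF : F.IsHomogeneous 2) (h : Hs F = 0) :
    F = 0 := by
  have h1 := quad_eq F hF 0 0 (fun s t => by rw [h]; simp)
  rw [h1]
  unfold lf
  simp

/-- the Hessian matrix of a combination -/
theorem Hs_sum {r : ℕ} (f : Fin r → MvPolynomial (Fin 3) ℂ) (lam : Fin r → ℂ) :
    Hs (∑ j, C (lam j) * f j) = ∑ j, lam j • Hs (f j) := by
  ext s t
  rw [Matrix.sum_apply]
  unfold Hs
  rw [Matrix.of_apply, map_sum, map_sum, coeff_sum]
  refine Finset.sum_congr rfl fun j _ => ?_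
  rw [pderiv_C_mul, pderiv_C_mul, coeff_C_mul, Matrix.smul_apply, Matrix.of_apply, smul_eq_mul]

/-- the determinant with the rows `a`, `b`, `c` -/
def d3 (a b c : Fin 3 → ℂ) : ℂ :=
  a 0 * (b 1 * c 2 - b 2 * c 1) - a 1 * (b 0 * c 2 - b 2 * c 0) + a 2 * (b 0 * c 1 - b 1 * c 0)

theorem d3_det (U : Matrix (Fin 3) (Fin 3) ℂ) : U.det = d3 (U 0) (U 1) (U 2) := by
  rw [Matrix.det_fin_three]
  unfold d3
  ring

/-- two of the forms together with `x` are independent -/
theorem exists_two {r : ℕ} (x : Fin 3 → ℂ) (hx : x ≠ 0) (L : Fin r → Fin 3 → ℂ)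
    (h : ∀ p : Fin 3 → ℂ, ∑ i, x i * p i = 0 → (∀ j, ∑ i, L j i * p i = 0) → p = 0) :
    ∃ j k, d3 x (L j) (L k) ≠ 0 := by
  by_contra hcon
  push Not at hcon
  have hpar : ∀ j, x 1 * L j 2 - x 2 * L j 1 = 0 ∧ x 2 * L j 0 - x 0 * L j 2 = 0 ∧
      x 0 * L j 1 - x 1 * L j 0 = 0 := by
    intro j
    have h1 := h ![x 1 * L j 2 - x 2 * L j 1, x 2 * L j 0 - x 0 * L j 2,
      x 0 * L j 1 - x 1 * L j 0] (by
        simp only [Fin.sum_univ_three, Matrix.cons_val_zero, Matrix.cons_val_one,
          Matrix.cons_val]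
        ring) (fun k => by
        have h2 := hcon j k
        unfold d3 at h2
        simp only [Fin.sum_univ_three, Matrix.cons_val_zero, Matrix.cons_val_one,
          Matrix.cons_val]
        linear_combination h2)
    exact ⟨congrFun h1 0, congrFun h1 1, congrFun h1 2⟩
  apply hx
  have h1 := h ![0, x 2, - x 1] (by
      simp only [Fin.sum_univ_three, Matrix.cons_val_zero, Matrix.cons_val_one, Matrix.cons_val]
      ring) (fun j => by
      simp only [Fin.sum_univ_three, Matrix.cons_val_zero, Matrix.cons_val_one, Matrix.cons_val]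
      linear_combination -(hpar j).1)
  have h2 := h ![- x 2, 0, x 0] (by
      simp only [Fin.sum_univ_three, Matrix.cons_val_zero, Matrix.cons_val_one, Matrix.cons_val]
      ring) (fun j => by
      simp only [Fin.sum_univ_three, Matrix.cons_val_zero, Matrix.cons_val_one, Matrix.cons_val]
      linear_combination -(hpar j).2.1)
  have e1 : x 2 = 0 := congrFun h1 1
  have e2 : - x 1 = 0 := congrFun h1 2
  have e3 : x 0 = 0 := congrFun h2 2
  funext i
  fin_cases i
  · exact e3
  · exact neg_eq_zero.1 e2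
  · exact e1

/-- Cramer's rule: if `d3 a b c ≠ 0` then `v` is a combination -/
theorem cramer3 (a b c v : Fin 3 → ℂ) (i : Fin 3) :
    d3 a b c * v i = d3 v b c * a i + d3 a v c * b i + d3 a b v * c i := by
  unfold d3
  fin_cases i
  · simp only [Fin.zero_eta]
    ring
  · simp only [Fin.mk_one]
    ring
  · simp only [Fin.reduceFinMk]
    ring

/-- the derivatives of three products -/
theorem det_prod (x a b c : Fin 3 → ℂ) :
    (Matrix.of fun s t : Fin 3 => pderiv s (lf x * lf ((![a, b, c] : Fin 3 → Fin 3 → ℂ) t))).det =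
      C (2 * d3 a b c) * lf x ^ 3 := by
  have h1 : ∀ (s : Fin 3) (v : Fin 3 → ℂ), pderiv s (lf x * lf v) =
      C (x s) * lf v + C (v s) * lf x := by
    intro s v
    rw [pderiv_mul, lf_pderiv, lf_pderiv]
    ring
  rw [Matrix.det_fin_three]
  simp only [Matrix.of_apply, h1, Matrix.cons_val_zero, Matrix.cons_val_one, Matrix.cons_val]
  unfold d3 lf
  simp only [Fin.sum_univ_three, C_mul, C_sub, C_add]
  have h2 : (C 2 : MvPolynomial (Fin 3) ℂ) = 2 :=
    map_ofNat (C : ℂ →+* MvPolynomial (Fin 3) ℂ) 2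
  rw [h2]
  ring

end Pool.Agent.Q162.QM
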