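import Mathlib
import Pool.Agent.Q57.QM.Stm
import Pool.Agent.Q57.QP.Stm
import Pool.Agent.Q162.QM.Quad

/-!
# Project QM: ternary quadratic forms without a common vertex
-/

set_option autoImplicit false
set_option linter.unusedSectionVars false

namespace Pool.Agent.Q162.QM

open MvPolynomial Pool.Agent.Q57.QM
open Pool.Agent.Q57.MC (Chart Same mulF)
open Pool.Agent.Q57.MD (sumF IsForm OnlyTrivial)

theorem cv_union {Γ : ∀ n r : ℕ, (Fin r → MvPolynomial (Fin n) ℂ) → Prop} {n r : ℕ} {J : Type}
    [Fintype J] (f : Fin r → MvPolynomial (Fin n) ℂ) (P : J → (Fin n → ℂ) → Prop)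
    (h : ∀ j, Cv Γ f (P j)) : Cv Γ f fun p => ∃ j, P j p := by
  classical
  choose S hS1 hS2 using h
  refine ⟨Finset.univ.biUnion S, fun A hA => ?_, fun p hp hf => ?_⟩
  · rw [Finset.mem_biUnion] at hA
    obtain ⟨j, -, hj⟩ := hA
    exact hS1 j A hj
  · obtain ⟨j, hj⟩ := hp
    obtain ⟨A, hA, hm⟩ := hS2 j p hj hf
    exact ⟨A, Finset.mem_biUnion.2 ⟨j, Finset.mem_univ _, hA⟩, hm⟩

theorem cv_mono {Γ : ∀ n r : ℕ, (Fin r → MvPolynomial (Fin n) ℂ) → Prop} {n r : ℕ}
    (f : Fin r → MvPolynomial (Fin n) ℂ) {P Q : (Fin n → ℂ) → Prop}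
    (h : Cv Γ f P) (hPQ : ∀ p, Q p → (∀ j, eval p (f j) = 0) → P p) : Cv Γ f Q := by
  obtain ⟨S, h1, h2⟩ := h
  exact ⟨S, h1, fun p hp hf => h2 p (hPQ p hp hf) hf⟩

/-- the weights of `IsForm` for all variables -/
theorem isWH {n : ℕ} (F : MvPolynomial (Fin n) ℂ) (d : ℕ) (hF : F.IsHomogeneous d) :
    F.IsWeightedHomogeneous (fun i => if i ∈ (Finset.univ : Finset (Fin n)) then 1 else 0) d := by
  have h : (fun i : Fin n => if i ∈ (Finset.univ : Finset (Fin n)) then 1 else 0) =
      (1 : Fin n → ℕ) := by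
    funext i
    rw [if_pos (Finset.mem_univ i)]
    rfl
  rw [h]
  exact hF

/-- the cover by the smooth points of the surfaces -/
theorem cover_ne {Γ : ∀ n r : ℕ, (Fin r → MvPolynomial (Fin n) ℂ) → Prop} (hΓ : GG Γ)
    (hS : StCvSmooth) {r : ℕ} (f : Fin r → MvPolynomial (Fin 3) ℂ)
    (hf : ∀ j, (f j).IsHomogeneous 2)
    (hv : ∀ p : Fin 3 → ℂ, (∀ j i, eval p (pderiv i (f j)) = 0) → p = 0) :
    Cv Γ f fun p => p ≠ 0 := by
  refine cv_mono f (cv_union f (fun j p => ∃ i, eval p (pderiv i (f j)) ≠ 0)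
    fun j => hS Γ hΓ f j (hf j).totalDegree_le) fun p hp _ => ?_
  by_contra hcon
  push Not at hcon
  exact hp (hv p hcon)

/-- the ideal `(x y, x z)` -/
theorem model {Γ : ∀ n r : ℕ, (Fin r → MvPolynomial (Fin n) ℂ) → Prop} (hΓ : GG Γ) :
    Γ 3 (1 * 2) (mulF (fun _ : Fin 1 => (X 0 : MvPolynomial (Fin 1) ℂ) ^ 1)
      (fun k : Fin 2 => (X k : MvPolynomial (Fin 2) ℂ))) :=
  hΓ.mul (n := 1) (n' := 2) (fun _ : Fin 1 => (X 0 : MvPolynomial (Fin 1) ℂ) ^ 1)
    (fun k : Fin 2 => (X k : MvPolynomial (Fin 2) ℂ)) (hΓ.pow 1 le_rfl)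
    (hΓ.plane _ ⟨0, X_ne_zero _⟩)

theorem lf_comb (a b c : Fin 3 → ℂ) (β γ : ℂ) (h : ∀ i, a i = β * b i + γ * c i) :
    lf a = C β * lf b + C γ * lf c := by
  unfold lf
  rw [Finset.mul_sum, Finset.mul_sum, ← Finset.sum_add_distrib]
  refine Finset.sum_congr rfl fun i _ => ?_
  rw [h, C_add, C_mul, C_mul]
  ring

/-- JOB QM-S5 -/
theorem qm_qforms : Pool.Agent.Q57.QP.StConics → Pool.Agent.Q57.QP.StHess → StCvSmooth →
    StQForms := by
  classical
  intro hC hH hS Γ hΓ r f hf hv
  have hcov := cover_ne hΓ hS f hf hv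
  rcases hC ℂ (fun j => Hs (f j)) (fun j => Hs_symm (f j)) with h | h | h
  · -- a regular quadric
    obtain ⟨lam, hlam⟩ := h
    rw [← Hs_sum] at hlam
    have hhom : (∑ j, C (lam j) * f j : MvPolynomial (Fin 3) ℂ).IsHomogeneous 2 := by
      refine IsHomogeneous.sum _ _ _ fun j _ => ?_
      have h1 := (isHomogeneous_C (Fin 3) (lam j)).mul (hf j)
      rwa [zero_add] at h1
    refine hΓ.cone f 2 ⟨Finset.univ_nonempty, by norm_num, fun j => isWH _ _ (hf j),
      Or.inr (Or.inl ⟨lam, le_rfl, fun h0 => ?_, hH _ hhom hlam⟩)⟩ hcov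
    rw [h0] at hlam
    apply hlam
    have h2 : Hs (0 : MvPolynomial (Fin 3) ℂ) = 0 := by
      ext s t
      unfold Hs
      simp
    rw [h2, Matrix.det_zero]
  · -- a common vertex
    exfalso
    obtain ⟨v, hv0, hv1⟩ := h
    apply hv0
    refine hv v fun j i => ?_
    rw [grad (f j) (hf j)]
    have h1 := congrFun (hv1 j) i
    have h2 : (Hs (f j)).mulVec v i = ∑ s, Hs (f j) i s * v s := rfl
    rw [h2] at h1
    rw [Pi.zero_apply] at h1
    rw [← h1]
    refine Finset.sum_congr rfl fun s _ => ?_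
    rw [(Hs_symm (f j)).apply i s]
  · -- a common factor
    obtain ⟨x, L, hx, hL⟩ := h
    have hHs : ∀ j s t, Hs (f j) s t = x s * L j t + L j s * x t := by
      intro j s t
      have h1 := congrFun (congrFun (hL j) s) t
      exact h1
    have hfac : ∀ j, f j = lf x * lf (L j) := fun j => quad_eq (f j) (hf j) x (L j) (hHs j)
    have hann : ∀ p : Fin 3 → ℂ, ∑ i, x i * p i = 0 → (∀ j, ∑ i, L j i * p i = 0) → p = 0 := by
      intro p h1 h2
      refine hv p fun j i => ?_
      rw [grad (f j) (hf j)]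
      have h3 : ∑ s, Hs (f j) s i * p s = (∑ s, x s * p s) * L j i +
          (∑ s, L j s * p s) * x i := by
        rw [Finset.sum_mul, Finset.sum_mul, ← Finset.sum_add_distrib]
        refine Finset.sum_congr rfl fun s _ => ?_
        rw [hHs]
        ring
      rw [h3, h1, h2 j]
      ring
    by_cases h3 : ∃ a b c, d3 (L a) (L b) (L c) ≠ 0
    · -- three independent forms
      obtain ⟨a, b, c, habc⟩ := h3
      refine hΓ.cone f 2 ⟨Finset.univ_nonempty, by norm_num, fun j => isWH _ _ (hf j),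
        Or.inl ⟨fun t => ![a, b, c] t.1, ?_⟩⟩ hcov
      have h4 : (Matrix.of fun s t : (Finset.univ : Finset (Fin 3)) =>
          pderiv (s : Fin 3) (f (![a, b, c] t.1))) =
          (Matrix.of fun s t : Fin 3 =>
            pderiv s (lf x * lf ((![L a, L b, L c] : Fin 3 → Fin 3 → ℂ) t))).submatrix
            (Equiv.subtypeUnivEquiv (fun i : Fin 3 => Finset.mem_univ i))
            (Equiv.subtypeUnivEquiv (fun i : Fin 3 => Finset.mem_univ i)) := by
        ext1 s t
        rw [Matrix.submatrix_apply, Matrix.of_apply, Matrix.of_apply, hfac]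
        obtain ⟨t, ht⟩ := t
        fin_cases t <;> rfl
      rw [h4, Matrix.det_submatrix_equiv_self, det_prod]
      refine mul_ne_zero ?_ (pow_ne_zero _ fun h5 => hx (lf_inj h5))
      rw [Ne, C_eq_zero]
      exact mul_ne_zero two_ne_zero habc
    · -- the ideal `x (y, z)`
      push Not at h3
      obtain ⟨a, b, hab⟩ := exists_two x hx L hann
      have hcomb : ∀ j, ∃ β γ : ℂ, ∀ i, L j i = β * L a i + γ * L b i := by
        intro j
        refine ⟨(d3 x (L a) (L b))⁻¹ * d3 x (L j) (L b), (d3 x (L a) (L b))⁻¹ *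
          d3 x (L a) (L j), fun i => ?_⟩
        have h4 := cramer3 x (L a) (L b) (L j) i
        rw [h3 j a b, zero_mul, zero_add] at h4
        have h5 : L j i = (d3 x (L a) (L b))⁻¹ * (d3 x (L a) (L b) * L j i) := by
          rw [← mul_assoc, inv_mul_cancel₀ hab, one_mul]
        rw [h5, h4]
        ring
      refine hΓ.lin f _ (Matrix.of ![x, L a, L b]) ?_ ?_ (model hΓ)
      · rw [d3_det]
        exact hab
      · -- the ideals
        have e0 : ∀ k : Fin (1 * 2), aeval (fun i => ∑ j, C ((Matrix.of ![x, L a, L b]) i j) * X j :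
            Fin 3 → MvPolynomial (Fin 3) ℂ)
            (mulF (fun _ : Fin 1 => (X 0 : MvPolynomial (Fin 1) ℂ) ^ 1)
              (fun k : Fin 2 => (X k : MvPolynomial (Fin 2) ℂ)) k) =
            lf x * lf ((![L a, L b] : Fin 2 → Fin 3 → ℂ) (finProdFinEquiv.symm k).2) := by
          intro k
          unfold mulF
          rw [pow_one, rename_X, rename_X, map_mul]
          have h6 : ∀ i : Fin 3, aeval (fun i => ∑ j, C ((Matrix.of ![x, L a, L b]) i j) * X j :
              Fin 3 → MvPolynomial (Fin 3) ℂ) (X i : MvPolynomial (Fin 3) ℂ) =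
              lf ((![x, L a, L b] : Fin 3 → Fin 3 → ℂ) i) := by
            intro i
            rw [aeval_X]
            rfl
          refine congrArg₂ (· * ·) (h6 _) ((h6 _).trans ?_)
          generalize (finProdFinEquiv.symm k).2 = k'
          fin_cases k' <;> rfl
        have e1 : Ideal.span (Set.range fun k : Fin (1 * 2) =>
            aeval (fun i => ∑ j, C ((Matrix.of ![x, L a, L b]) i j) * X j :
            Fin 3 → MvPolynomial (Fin 3) ℂ)
            (mulF (fun _ : Fin 1 => (X 0 : MvPolynomial (Fin 1) ℂ) ^ 1)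
              (fun k : Fin 2 => (X k : MvPolynomial (Fin 2) ℂ)) k)) =
            Ideal.span {lf x * lf (L a), lf x * lf (L b)} := by
          congr 1
          ext q
          rw [Set.mem_range, Set.mem_insert_iff, Set.mem_singleton_iff]
          constructor
          · rintro ⟨k, rfl⟩
            rw [e0]
            generalize (finProdFinEquiv.symm k).2 = k'
            fin_cases k'
            · exact Or.inl rfl
            · exact Or.inr rfl
          · rintro (rfl | rfl)
            · refine ⟨finProdFinEquiv (0, 0), ?_⟩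
              rw [e0, Equiv.symm_apply_apply]
              rfl
            · refine ⟨finProdFinEquiv (0, 1), ?_⟩
              rw [e0, Equiv.symm_apply_apply]
              rfl
        refine Eq.trans ?_ e1.symm
        apply le_antisymm
        · rw [Ideal.span_le]
          rintro q ⟨j, rfl⟩
          obtain ⟨β, γ, hβ⟩ := hcomb j
          change f j ∈ Ideal.span {lf x * lf (L a), lf x * lf (L b)}
          have h7 : f j = C β * (lf x * lf (L a)) + C γ * (lf x * lf (L b)) := by
            rw [hfac, lf_comb (L j) (L a) (L b) β γ hβ]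
            ring
          rw [h7]
          exact Ideal.add_mem _
            (Ideal.mul_mem_left _ _ (Ideal.subset_span (Set.mem_insert _ _)))
            (Ideal.mul_mem_left _ _ (Ideal.subset_span
              (Set.mem_insert_of_mem _ (Set.mem_singleton _))))
        · rw [Ideal.span_le]
          rintro q hq
          rw [Set.mem_insert_iff, Set.mem_singleton_iff] at hq
          rcases hq with rfl | rfl
          · rw [← hfac]
            exact Ideal.subset_span ⟨a, rfl⟩
          · rw [← hfac]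
            exact Ideal.subset_span ⟨b, rfl⟩

end Pool.Agent.Q162.QM
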