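import Mathlib
import Pool.Agent.Q162.QM.QForms

/-!
# Project QM: common singular points of quadrics
-/

set_option autoImplicit false
set_option linter.unusedSectionVars false

namespace Pool.Agent.Q162.QM

open MvPolynomial Pool.Agent.Q57.QM Pool.Agent.Q162.QP
open Pool.Agent.Q57.MC (Chart Same frac)

/-- translation -/
noncomputable def T (p : Fin 3 → ℂ) : MvPolynomial (Fin 3) ℂ →ₐ[ℂ] MvPolynomial (Fin 3) ℂ :=
  aeval fun i => X i + C (p i)

theorem T_X (p : Fin 3 → ℂ) (i : Fin 3) : T p (X i) = X i + C (p i) := aeval_X _ _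

theorem T_C (p : Fin 3 → ℂ) (a : ℂ) : T p (C a) = C a := by
  unfold T
  rw [aeval_C]
  rfl

theorem T_T (p : Fin 3 → ℂ) (f : MvPolynomial (Fin 3) ℂ) : T (-p) (T p f) = f := by
  have h : (T (-p)).comp (T p) = AlgHom.id ℂ _ := by
    apply MvPolynomial.algHom_ext
    intro i
    rw [AlgHom.comp_apply, T_X, map_add, T_X, T_C, AlgHom.id_apply, Pi.neg_apply, C_neg]
    ring
  exact DFunLike.congr_fun h f

theorem pderiv_T (p : Fin 3 → ℂ) (i : Fin 3) (f : MvPolynomial (Fin 3) ℂ) :
    pderiv i (T p f) = T p (pderiv i f) := by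
  induction f using MvPolynomial.induction_on with
  | C a => rw [T_C, pderiv_C, map_zero]
  | add f g hf hg => rw [map_add, map_add, map_add, map_add, hf, hg]
  | mul_X f n hf =>
    have h1 : pderiv i (X n + C (p n) : MvPolynomial (Fin 3) ℂ) = T p (pderiv i (X n)) := by
      rw [map_add, pderiv_C, add_zero]
      by_cases h : n = i
      · subst h
        rw [pderiv_X_self, map_one]
      · rw [pderiv_X_of_ne h, map_zero]
    have h2 : T p (f * X n) = T p f * (X n + C (p n)) := by rw [map_mul, T_X]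
    have h3 : T p (pderiv i (f * X n)) =
        T p (pderiv i f) * (X n + C (p n)) + T p f * T p (pderiv i (X n)) := by
      rw [pderiv_mul, map_add, map_mul, map_mul, T_X]
    rw [h2, h3, pderiv_mul, hf, h1]

theorem eval_T (p q : Fin 3 → ℂ) (f : MvPolynomial (Fin 3) ℂ) :
    eval q (T p f) = eval (q + p) f := by
  have h : (eval q : MvPolynomial (Fin 3) ℂ →+* ℂ).comp (T p).toRingHom = eval (q + p) := by
    apply MvPolynomial.ringHom_ext
    · intro a
      change eval q (T p (C a)) = _
      rw [T_C, eval_C, eval_C]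
    · intro i
      change eval q (T p (X i)) = _
      rw [T_X, map_add, eval_X, eval_C, eval_X, Pi.add_apply]
  exact DFunLike.congr_fun h f

theorem totalDegree_T (p : Fin 3 → ℂ) (f : MvPolynomial (Fin 3) ℂ) :
    (T p f).totalDegree ≤ f.totalDegree := by
  unfold T
  rw [aeval_def, eval₂_eq']
  refine (totalDegree_finsetSum _ _).trans (Finset.sup_le fun m hm => ?_)
  refine (totalDegree_mul _ _).trans ?_
  have h1 : (algebraMap ℂ (MvPolynomial (Fin 3) ℂ) (coeff m f)).totalDegree = 0 :=
    totalDegree_C _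
  rw [h1, zero_add]
  refine (totalDegree_finsetProd _ _).trans ?_
  have h2 : ∀ i : Fin 3, ((X i + C (p i) : MvPolynomial (Fin 3) ℂ) ^ m i).totalDegree ≤ m i := by
    intro i
    refine (totalDegree_pow _ _).trans ?_
    have h3 : (X i + C (p i) : MvPolynomial (Fin 3) ℂ).totalDegree ≤ 1 := by
      refine (totalDegree_add _ _).trans ?_
      rw [totalDegree_X, totalDegree_C]
      exact le_rfl
    calc m i * (X i + C (p i) : MvPolynomial (Fin 3) ℂ).totalDegree ≤ m i * 1 :=
          Nat.mul_le_mul_left _ h3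
      _ = m i := mul_one _
  refine (Finset.sum_le_sum fun i _ => h2 i).trans ?_
  have h4 := le_totalDegree hm
  rw [Finsupp.sum_fintype _ _ (fun _ => rfl)] at h4
  exact h4

theorem homog_of (F : MvPolynomial (Fin 3) ℂ) (hd : F.totalDegree ≤ 2) (h0 : eval 0 F = 0)
    (h1 : ∀ i, eval 0 (pderiv i F) = 0) : F.IsHomogeneous 2 := by
  intro m hm
  have h2 := le_totalDegree (mem_support_iff.2 hm)
  rw [Finsupp.sum_fintype _ _ (fun _ => rfl)] at h2
  have h3 : Finsupp.weight (1 : Fin 3 → ℕ) m = ∑ i, m i := by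
    rw [Finsupp.weight_apply, Finsupp.sum_fintype _ _ (fun _ => by simp)]
    simp
  rw [h3]
  by_contra hne
  have h4 : ∑ i, m i = 0 ∨ ∑ i, m i = 1 := by omega
  rcases h4 with h4 | h4
  · have h5 : m = 0 := by
      ext i
      exact (Finset.sum_eq_zero_iff.1 h4) i (Finset.mem_univ i)
    apply hm
    rw [h5]
    rw [← constantCoeff_eq, ← eval_zero]
    exact h0
  · obtain ⟨i, hi⟩ : ∃ i, m i ≠ 0 := by
      by_contra hcon
      push Not at hcon
      rw [Finset.sum_eq_zero fun i _ => hcon i] at h4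
      exact zero_ne_one h4
    have h5 : m = Finsupp.single i 1 := by
      have h6 : m i + ∑ j ∈ Finset.univ.erase i, m j = 1 := by
        rw [Finset.add_sum_erase _ _ (Finset.mem_univ i), h4]
      have h7 : m i = 1 := by omega
      have h8 : ∑ j ∈ Finset.univ.erase i, m j = 0 := by omega
      ext j
      by_cases hj : j = i
      · rw [hj, h7, Finsupp.single_eq_same]
      · rw [Finsupp.single_eq_of_ne hj]
        exact (Finset.sum_eq_zero_iff.1 h8) j (Finset.mem_erase.2 ⟨hj, Finset.mem_univ j⟩)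
    apply hm
    have h6 := h1 i
    rw [eval_zero, constantCoeff_eq, coeff_pderiv, zero_add] at h6
    rw [h5]
    simpa using h6

/-- the localization by one -/
theorem frac_one {n c : ℕ} (a : Fin c → MvPolynomial (Fin n) ℂ) (q : MvPolynomial (Fin c) ℂ) :
    frac a (1 : MvPolynomial (Fin n) ℂ) q =
      algebraMap (MvPolynomial (Fin n) ℂ) (Localization.Away (1 : MvPolynomial (Fin n) ℂ))
        (aeval a q) := by
  have h2 : (IsLocalization.Away.invSelf (1 : MvPolynomial (Fin n) ℂ) :
      Localization.Away (1 : MvPolynomial (Fin n) ℂ)) = 1 := by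
    have h3 := IsLocalization.Away.mul_invSelf
      (S := Localization.Away (1 : MvPolynomial (Fin n) ℂ)) (1 : MvPolynomial (Fin n) ℂ)
    rwa [map_one, one_mul] at h3
  unfold frac
  simp only [h2, mul_one]
  have h4 : ((Algebra.ofId (MvPolynomial (Fin n) ℂ)
      (Localization.Away (1 : MvPolynomial (Fin n) ℂ))).restrictScalars ℂ).comp
      (aeval a) = aeval (fun t => algebraMap (MvPolynomial (Fin n) ℂ)
        (Localization.Away (1 : MvPolynomial (Fin n) ℂ)) (a t)) := by
    apply MvPolynomial.algHom_ext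
    intro i
    rw [AlgHom.comp_apply, aeval_X, aeval_X]
    rfl
  exact (DFunLike.congr_fun h4 q).symm

theorem same_one {n c r : ℕ} (f : Fin r → MvPolynomial (Fin n) ℂ)
    (h : Fin r → MvPolynomial (Fin c) ℂ) (a : Fin c → MvPolynomial (Fin n) ℂ)
    (hf : ∀ j, f j = aeval a (h j)) : Same f h a 1 := by
  unfold Same
  congr 2
  funext j
  rw [frac_one, ← hf]

/-- Euler's formula -/
theorem quad_formula (F : MvPolynomial (Fin 3) ℂ) (hF : F.IsHomogeneous 2) :
    2 * F = ∑ t, X t * ∑ s, C (Hs F s t) * X s := by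
  have h1 := hF.sum_X_mul_pderiv
  have h2 : ∀ t, pderiv t F = ∑ s, C (Hs F s t) * X s := fun t => pderiv_quad F hF t
  rw [nsmul_eq_mul] at h1
  have h3 : (2 : MvPolynomial (Fin 3) ℂ) * F = ((2 : ℕ) : MvPolynomial (Fin 3) ℂ) * F := by
    norm_num
  rw [h3, ← h1]
  exact Finset.sum_congr rfl fun t _ => by rw [h2]

/-- a quadratic form is invariant under the translations by a vertex -/
theorem quad_inv {R : Type} [CommRing R] [Algebra ℂ R] (F : MvPolynomial (Fin 3) ℂ)
    (hF : F.IsHomogeneous 2) (v : Fin 3 → ℂ) (hv : ∀ t, ∑ s, Hs F s t * v s = 0)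
    (y : Fin 3 → R) (c : R) (h2 : ∀ x : R, 2 * x = 0 → x = 0) :
    aeval (fun i => y i - c * algebraMap ℂ R (v i)) F = aeval y F := by
  have hsymm : ∀ s t, Hs F s t = Hs F t s := fun s t => ((Hs_symm F).apply s t).symm
  have h1 : ∀ z : Fin 3 → R, 2 * aeval z F =
      ∑ t, z t * ∑ s, algebraMap ℂ R (Hs F s t) * z s := by
    intro z
    have h3 := congrArg (aeval z) (quad_formula F hF)
    rw [map_mul, map_sum, map_ofNat] at h3
    rw [h3]
    refine Finset.sum_congr rfl fun t _ => ?_
    rw [map_mul, aeval_X, map_sum]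
    congr 1
    refine Finset.sum_congr rfl fun s _ => ?_
    rw [map_mul, aeval_C, aeval_X]
  have hv' : ∀ t, ∑ s, algebraMap ℂ R (Hs F s t) * algebraMap ℂ R (v s) = 0 := by
    intro t
    have h3 := congrArg (algebraMap ℂ R) (hv t)
    rw [map_sum, map_zero] at h3
    rw [← h3]
    exact Finset.sum_congr rfl fun s _ => (map_mul _ _ _).symm
  have hv'' : ∀ s, ∑ t, algebraMap ℂ R (Hs F s t) * algebraMap ℂ R (v t) = 0 := by
    intro s
    rw [← hv' s]
    exact Finset.sum_congr rfl fun t _ => by rw [hsymm s t]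
  have h3 : ∑ t, (y t - c * algebraMap ℂ R (v t)) *
      ∑ s, algebraMap ℂ R (Hs F s t) * (y s - c * algebraMap ℂ R (v s)) =
      ∑ t, y t * ∑ s, algebraMap ℂ R (Hs F s t) * y s := by
    have h4 : ∀ t, ∑ s, algebraMap ℂ R (Hs F s t) * (y s - c * algebraMap ℂ R (v s)) =
        ∑ s, algebraMap ℂ R (Hs F s t) * y s := by
      intro t
      have h5 : ∑ s, algebraMap ℂ R (Hs F s t) * (y s - c * algebraMap ℂ R (v s)) =
          ∑ s, algebraMap ℂ R (Hs F s t) * y s -
            c * ∑ s, algebraMap ℂ R (Hs F s t) * algebraMap ℂ R (v s) := by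
        rw [Finset.mul_sum, ← Finset.sum_sub_distrib]
        exact Finset.sum_congr rfl fun s _ => by ring
      rw [h5, hv', mul_zero, sub_zero]
    simp only [h4]
    have h6 : ∑ t, (y t - c * algebraMap ℂ R (v t)) * ∑ s, algebraMap ℂ R (Hs F s t) * y s =
        ∑ t, y t * ∑ s, algebraMap ℂ R (Hs F s t) * y s -
          c * ∑ s, y s * ∑ t, algebraMap ℂ R (Hs F s t) * algebraMap ℂ R (v t) := by
      have h7 : ∑ s, y s * ∑ t, algebraMap ℂ R (Hs F s t) * algebraMap ℂ R (v t) =
          ∑ t, algebraMap ℂ R (v t) * ∑ s, algebraMap ℂ R (Hs F s t) * y s := by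
        simp only [Finset.mul_sum]
        rw [Finset.sum_comm]
        exact Finset.sum_congr rfl fun t _ => Finset.sum_congr rfl fun s _ => by ring
      rw [h7, Finset.mul_sum, ← Finset.sum_sub_distrib]
      exact Finset.sum_congr rfl fun t _ => by ring
    rw [h6]
    simp only [hv'', mul_zero, Finset.sum_const_zero, sub_zero]
  rw [← h1, ← h1] at h3
  rw [← sub_eq_zero]
  apply h2
  rw [mul_sub, h3, sub_self]

/-- JOB QM-S6 -/
theorem qm_cvvertex : StCvComp → StCvPlane → StQForms → StCvVertex := by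
  classical
  intro hComp hPlane hQ Γ hΓ r f hne hdeg
  by_cases hex : ∃ p : Fin 3 → ℂ, (∀ j i, eval p (pderiv i (f j)) = 0) ∧ ∀ j, eval p (f j) = 0
  swap
  · refine ⟨∅, fun A hA => absurd hA (Finset.notMem_empty A), fun p hp hf => ?_⟩
    exact absurd ⟨p, hp, hf⟩ hex
  obtain ⟨p, hp1, hp0⟩ := hex
  obtain ⟨g, hg⟩ : ∃ g : Fin r → MvPolynomial (Fin 3) ℂ, g = fun j => T p (f j) := ⟨_, rfl⟩
  have hgj : ∀ j, g j = T p (f j) := fun j => by rw [hg]
  have hfg : ∀ j, f j = T (-p) (g j) := fun j => by rw [hgj, T_T]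
  have hhom : ∀ j, (g j).IsHomogeneous 2 := by
    intro j
    refine homog_of _ ?_ ?_ fun i => ?_
    · rw [hgj]
      exact (totalDegree_T p (f j)).trans (hdeg j)
    · rw [hgj, eval_T, zero_add]
      exact hp0 j
    · rw [hgj, pderiv_T, eval_T, zero_add]
      exact hp1 j i
  have hgne : ∃ j, g j ≠ 0 := by
    obtain ⟨j, hj⟩ := hne
    refine ⟨j, fun h0 => hj ?_⟩
    rw [hfg, h0, map_zero]
  by_cases hvert : ∀ q : Fin 3 → ℂ, (∀ j i, eval q (pderiv i (g j)) = 0) → q = 0
  · -- an isolated point
    have hΓg := hQ Γ hΓ g hhom hvert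
    let A : Chart (Fin 3) := ⟨3, r, fun i => X i + C (-(p i)), 1, id, g⟩
    refine ⟨{A}, fun B hB => ?_, fun q hq1 hq0 => ?_⟩
    · rw [Finset.mem_singleton.1 hB]
      refine ⟨?_, hΓg⟩
      exact same_one f g (fun i => X i + C (-(p i))) fun j => hfg j
    · refine ⟨A, Finset.mem_singleton_self A, ?_⟩
      have h1 : q + -p = 0 := by
        refine hvert _ fun j i => ?_
        rw [← eval_T, ← pderiv_T, ← hfg]
        exact hq1 j i
      have h2 : q = p := by rwa [← sub_eq_add_neg, sub_eq_zero] at h1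
      rw [h2]
      refine ⟨?_, fun t => ?_, ?_⟩
      · change eval p (1 : MvPolynomial (Fin 3) ℂ) ≠ 0
        rw [map_one]
        exact one_ne_zero
      · change eval p (X t + C (-(p t))) = 0
        rw [map_add, eval_X, eval_C]
        ring
      · change (Matrix.of fun u t : Fin 3 => eval p (pderiv (id u) (X t + C (-(p t))))).det ≠ 0
        have h3 : (Matrix.of fun u t : Fin 3 => eval p (pderiv (id u) (X t + C (-(p t))))) = 1 := by
          ext u t
          rw [Matrix.of_apply, map_add, pderiv_C, add_zero, Matrix.one_apply]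
          by_cases h4 : u = t
          · subst h4
            rw [if_pos rfl]
            change eval p (pderiv u (X u)) = 1
            rw [pderiv_X_self, map_one]
          · rw [if_neg h4]
            change eval p (pderiv u (X t)) = 0
            rw [pderiv_X_of_ne (Ne.symm h4), map_zero]
        rw [h3, Matrix.det_one]
        exact one_ne_zero
  · -- a line or a plane
    push Not at hvert
    obtain ⟨v, hv1, hv0⟩ := hvert
    obtain ⟨k, hk⟩ := Function.ne_iff.1 hv0
    rw [Pi.zero_apply] at hk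
    have hker : ∀ j t, ∑ s, Hs (g j) s t * v s = 0 := by
      intro j t
      rw [← grad (g j) (hhom j)]
      exact hv1 j t
    -- the coordinates
    let a : Fin 2 → MvPolynomial (Fin 3) ℂ := fun t =>
      (X (k.succAbove t) + C (-(p (k.succAbove t)))) -
        (X k + C (-(p k))) * C ((v k)⁻¹ * v (k.succAbove t))
    let z : Fin 3 → MvPolynomial (Fin 2) ℂ :=
      k.insertNth (0 : MvPolynomial (Fin 2) ℂ) (fun t => X t)
    let h : Fin r → MvPolynomial (Fin 2) ℂ := fun j => aeval z (g j)
    have h2 : ∀ x : MvPolynomial (Fin 3) ℂ, 2 * x = 0 → x = 0 := by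
      intro x hx
      rcases mul_eq_zero.1 hx with h3 | h3
      · exfalso
        have h4 : (2 : MvPolynomial (Fin 3) ℂ) = C 2 :=
          (map_ofNat (C : ℂ →+* MvPolynomial (Fin 3) ℂ) 2).symm
        rw [h4, C_eq_zero] at h3
        exact two_ne_zero h3
      · exact h3
    have hfa : ∀ j, f j = aeval a (h j) := by
      intro j
      have h3 := quad_inv (g j) (hhom j) v (hker j) (fun i => (X i + C (-(p i)) :
        MvPolynomial (Fin 3) ℂ)) ((X k + C (-(p k))) * C ((v k)⁻¹)) h2
      have h4 : aeval (fun i => (X i + C (-(p i)) : MvPolynomial (Fin 3) ℂ)) (g j) = f j :=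
        (hfg j).symm
      rw [h4] at h3
      rw [← h3]
      have h5 : (aeval a).comp (aeval z) = (aeval fun i => (X i + C (-(p i)) :
          MvPolynomial (Fin 3) ℂ) - (X k + C (-(p k))) * C ((v k)⁻¹) *
          algebraMap ℂ (MvPolynomial (Fin 3) ℂ) (v i) :
          MvPolynomial (Fin 3) ℂ →ₐ[ℂ] MvPolynomial (Fin 3) ℂ) := by
        apply MvPolynomial.algHom_ext
        intro i
        rw [AlgHom.comp_apply, aeval_X, aeval_X, algebraMap_eq]
        rcases Fin.eq_self_or_eq_succAbove k i with hi | ⟨t, hi⟩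
        · rw [hi]
          have h6 : z k = 0 := Fin.insertNth_apply_same _ _ _
          rw [h6, map_zero, mul_assoc, ← C_mul, inv_mul_cancel₀ hk, C_1, mul_one, sub_self]
        · rw [hi]
          have h6 : z (k.succAbove t) = X t := Fin.insertNth_apply_succAbove _ _ _ _
          rw [h6, aeval_X, mul_assoc, ← C_mul]
      exact (DFunLike.congr_fun h5 (g j)).symm
    have hhne : ∃ j, h j ≠ 0 := by
      obtain ⟨j, hj⟩ := hne
      refine ⟨j, fun h0 => hj ?_⟩
      rw [hfa, h0, map_zero]
    have hcov := hPlane Γ (fun f hf => hΓ.plane f hf) hΓ.pow h hhne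
    have hcomp := hComp Γ f h a 1 (same_one f h a hfa) hcov
    refine cv_mono f hcomp fun q _ _ => ⟨?_, fun t => k.succAbove t, ?_⟩
    · rw [map_one]
      exact one_ne_zero
    · have h3 : (Matrix.of fun u t : Fin 2 => eval q (pderiv (k.succAbove u) (a t) * 1 -
          a t * pderiv (k.succAbove u) 1)) = 1 := by
        ext u t
        rw [Matrix.of_apply, pderiv_one, mul_zero, sub_zero, mul_one, Matrix.one_apply]
        have h4 : pderiv (k.succAbove u) (a t) =
            pderiv (k.succAbove u) (X (k.succAbove t) : MvPolynomial (Fin 3) ℂ) := by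
          change pderiv (k.succAbove u) ((X (k.succAbove t) + C (-(p (k.succAbove t)))) -
            (X k + C (-(p k))) * C ((v k)⁻¹ * v (k.succAbove t))) = _
          rw [map_sub, map_add, pderiv_C, add_zero, pderiv_mul, map_add, pderiv_C, pderiv_C,
            pderiv_X_of_ne (Fin.succAbove_ne k u).symm]
          ring
        rw [h4]
        by_cases h5 : u = t
        · subst h5
          rw [if_pos rfl, pderiv_X_self, map_one]
        · rw [if_neg h5, pderiv_X_of_ne (fun h6 => h5 (Fin.succAbove_right_injective h6).symm),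
            map_zero]
      rw [h3, Matrix.det_one]
      exact one_ne_zero

end Pool.Agent.Q162.QM
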